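import Mathlib

/-!
# Sets with doubling below `3` in cyclic groups: only degenerate covers by progressions

The example is `A = H₂ ∪ (1 + H₃) ∪ (3 + H₃)` in `ℤ_n`, `n = 2 ^ (a + 1) * N`, with `N` a large
prime, `|H₂| = 2 ^ (a + 1)`, `|H₃| = 2 ^ a`.
-/

set_option autoImplicit false
set_option linter.unusedSectionVars false
set_option linter.unnecessarySimpa false

open Finset
open scoped Pointwise

namespace Pool.Agent.Results.MP_09e095_co.EfficientFormFails

section fibres

variable {G : Type*} [AddCommGroup G] [DecidableEq G] {N : ℕ} (f : G →+ ZMod N)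

/-- the part of `P` above `q` -/
def fib (P : Finset G) (q : ZMod N) : Finset G := P.filter (fun x => f x = q)

lemma mem_fib {P : Finset G} {q : ZMod N} {x : G} : x ∈ fib f P q ↔ x ∈ P ∧ f x = q := by
  rw [fib, mem_filter]

lemma card_eq_sum_fib [NeZero N] (P : Finset G) : #P = ∑ q : ZMod N, #(fib f P q) :=
  Finset.card_eq_sum_card_fiberwise (fun x _ => Finset.mem_coe.mpr (Finset.mem_univ (f x)))

/-- the values with large fibres -/
def lev [NeZero N] (P : Finset G) (w : ℕ) : Finset (ZMod N) :=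
  Finset.univ.filter (fun q => w ≤ #(fib f P q))

lemma sum_lev [NeZero N] (P : Finset G) (M : ℕ) (hM : #P ≤ M) :
    ∑ w ∈ Finset.Icc 1 M, #(lev f P w) = #P := by
  have h1 : ∀ w, #(lev f P w) = ∑ q : ZMod N, if w ≤ #(fib f P q) then 1 else 0 := by
    intro w
    rw [lev, Finset.card_filter]
  rw [Finset.sum_congr rfl (fun w _ => h1 w), Finset.sum_comm]
  conv_rhs => rw [card_eq_sum_fib f P]
  apply Finset.sum_congr rfl
  intro q _
  have hq : #(fib f P q) ≤ M := (Finset.card_filter_le _ _).trans hM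
  rw [← Finset.card_filter]
  have h2 : (Finset.Icc 1 M).filter (fun w => w ≤ #(fib f P q)) = Finset.Icc 1 #(fib f P q) := by
    ext w
    rw [mem_filter, mem_Icc, mem_Icc]
    constructor
    · rintro ⟨⟨a, _⟩, b⟩; exact ⟨a, b⟩
    · rintro ⟨a, b⟩; exact ⟨⟨a, b.trans hq⟩, b⟩
  rw [h2, Nat.card_Icc, Nat.add_sub_cancel]

lemma lev_add_subset [NeZero N] (P : Finset G) (w : ℕ) :
    lev f P w + lev f P 1 ⊆ lev f (P + P) w := by
  intro s hs
  obtain ⟨q, hq, q', hq', rfl⟩ := Finset.mem_add.mp hs
  rw [lev, mem_filter] at hq hq' ⊢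
  refine ⟨Finset.mem_univ _, ?_⟩
  obtain ⟨y, hy⟩ := Finset.card_pos.mp hq'.2
  rw [mem_fib] at hy
  refine hq.2.trans ?_
  rw [← Finset.card_image_of_injective (fib f P q) (add_left_injective y)]
  apply Finset.card_le_card
  intro z hz
  obtain ⟨x, hx, rfl⟩ := Finset.mem_image.mp hz
  rw [mem_fib] at hx ⊢
  exact ⟨Finset.add_mem_add hx.1 hy.1, by rw [map_add, hx.2, hy.2]⟩

/-- the main inequality, by Cauchy-Davenport on level sets -/
lemma card_add_ge [Fact N.Prime] (P : Finset G) (q : ZMod N)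
    (hN : 2 * #(P.image f) ≤ N + 1) :
    #P + (#(P.image f) - 1) * #(fib f P q) ≤ #(P + P) := by
  have hN1 : lev f P 1 = P.image f := by
    ext s
    rw [lev, mem_filter, Finset.mem_image]
    constructor
    · rintro ⟨_, h⟩
      obtain ⟨y, hy⟩ := Finset.card_pos.mp h
      rw [mem_fib] at hy
      exact ⟨y, hy.1, hy.2⟩
    · rintro ⟨y, hy, rfl⟩
      exact ⟨Finset.mem_univ _, Finset.card_pos.mpr ⟨y, (mem_fib f).mpr ⟨hy, rfl⟩⟩⟩
  set r := #(P.image f) with hr
  have hle : ∀ w, 1 ≤ w → #(lev f P w) ≤ r := by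
    intro w hw
    rw [hr, ← hN1]
    apply Finset.card_le_card
    intro s hs
    rw [lev, mem_filter] at hs ⊢
    exact ⟨hs.1, hw.trans hs.2⟩
  have key : ∀ w ∈ Finset.Icc 1 (#(P + P) + #P),
      #(lev f P w) + (if w ≤ #(fib f P q) then r - 1 else 0) ≤ #(lev f (P + P) w) := by
    intro w hw
    rw [mem_Icc] at hw
    rcases Finset.eq_empty_or_nonempty (lev f P w) with h0 | hne
    · have h1 : ¬ w ≤ #(fib f P q) := by
        intro h
        have : q ∈ lev f P w := by
          rw [lev, mem_filter]; exact ⟨Finset.mem_univ _, h⟩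
        rw [h0] at this
        exact Finset.notMem_empty _ this
      rw [h0, if_neg h1]
      simp
    · have hne1 : (lev f P 1).Nonempty := by
        obtain ⟨s, hs⟩ := hne
        refine ⟨s, ?_⟩
        rw [lev, mem_filter] at hs ⊢
        exact ⟨hs.1, hw.1.trans hs.2⟩
      have h2 := ZMod.cauchy_davenport (Fact.out : N.Prime) hne hne1
      have h3 := Finset.card_le_card (lev_add_subset f P w)
      have h4 := hle w hw.1
      have h5 : #(lev f P 1) = r := by rw [hN1]
      have h6 : 1 ≤ r := by rw [← h5]; exact Finset.card_pos.mpr hne1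
      have h7 := Finset.card_pos.mpr hne
      rw [h5] at h2
      have h8 : #(lev f P w) + (r - 1) ≤ #(lev f P w + lev f P 1) := by
        rcases min_le_iff.mp h2 with h | h <;> omega
      split_ifs <;> omega
  have h1 := Finset.sum_le_sum key
  rw [Finset.sum_add_distrib, sum_lev f P _ (by omega), sum_lev f (P + P) _ (by omega)] at h1
  refine le_trans ?_ h1
  apply Nat.add_le_add_left
  rw [← Finset.sum_filter, Finset.sum_const, smul_eq_mul, mul_comm]
  apply Nat.mul_le_mul_right
  have h9 : Finset.Icc 1 #(fib f P q) ⊆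
      (Finset.Icc 1 (#(P + P) + #P)).filter (fun w => w ≤ #(fib f P q)) := by
    intro w hw
    rw [mem_Icc] at hw
    rw [mem_filter, mem_Icc]
    have : #(fib f P q) ≤ #P := Finset.card_filter_le _ _
    omega
  have h10 := Finset.card_le_card h9
  rw [Nat.card_Icc, Nat.add_sub_cancel] at h10
  exact h10

end fibres

section general

variable {G : Type*} [AddCommGroup G] [Fintype G] [DecidableEq G]

lemma coset_of_small {T : Finset G} (h : #(T + T) ≤ #T) {x0 : G} (hx0 : x0 ∈ T) :
    ∃ K : AddSubgroup G, (∀ x, x ∈ T ↔ x - x0 ∈ K) ∧ Nat.card K = #T := by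
  have h1 : T.image (fun t => x0 + t) = T + T := by
    apply Finset.eq_of_subset_of_card_le
    · intro z hz
      obtain ⟨t, ht, rfl⟩ := Finset.mem_image.mp hz
      exact Finset.add_mem_add hx0 ht
    · rw [Finset.card_image_of_injective _ (add_right_injective x0)]
      exact h
  have hadd : ∀ a b : G, a + x0 ∈ T → b + x0 ∈ T → a + b + x0 ∈ T := by
    intro a b ha hb
    have h2 : (a + x0) + (b + x0) ∈ T.image (fun t => x0 + t) := by
      rw [h1]; exact Finset.add_mem_add ha hb
    obtain ⟨t, ht, he⟩ := Finset.mem_image.mp h2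
    have h3 : t = a + b + x0 := by
      have h4 : x0 + t = x0 + (a + b + x0) := by rw [he]; abel
      exact add_left_cancel h4
    rw [← h3]
    exact ht
  have hsmul : ∀ (k : ℕ) (a : G), a + x0 ∈ T → k • a + x0 ∈ T := by
    intro k a ha
    induction k with
    | zero => rw [zero_smul, zero_add]; exact hx0
    | succ k ih => rw [succ_nsmul]; exact hadd _ _ ih ha
  let K : AddSubgroup G :=
    { carrier := {a | a + x0 ∈ T}
      add_mem' := fun {a b} ha hb => hadd a b ha hb
      zero_mem' := by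
        change (0 : G) + x0 ∈ T
        rw [zero_add]; exact hx0
      neg_mem' := by
        intro a ha
        change -a + x0 ∈ T
        have h2 : -a = (addOrderOf a - 1) • a := by
          have h3 : 0 < addOrderOf a := addOrderOf_pos a
          have h4 : (addOrderOf a - 1) • a + a = 0 := by
            rw [← succ_nsmul, Nat.sub_add_cancel h3, addOrderOf_nsmul_eq_zero]
          exact neg_eq_of_add_eq_zero_left h4
        rw [h2]
        exact hsmul _ _ ha }
  have hK : ∀ x, x ∈ T ↔ x - x0 ∈ K := by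
    intro x
    change x ∈ T ↔ x - x0 + x0 ∈ T
    rw [sub_add_cancel]
  refine ⟨K, hK, ?_⟩
  have h2 : Nat.card K = Nat.card T := by
    apply Nat.card_congr
    exact
      { toFun := fun a => ⟨a.1 + x0, a.2⟩
        invFun := fun t => ⟨t.1 - x0, (hK t.1).mp t.2⟩
        left_inv := fun a => Subtype.ext (add_sub_cancel_right _ _)
        right_inv := fun t => Subtype.ext (sub_add_cancel _ _) }
  rw [h2, Nat.card_eq_fintype_card, Fintype.card_coe]

/-- covering a finset by translates of a subgroup -/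
lemma card_le_of_cover {B T : Finset G} {H : AddSubgroup G}
    (h : ∀ b ∈ B, ∃ t ∈ T, ∃ x ∈ H, b = t + x) : #B ≤ #T * Nat.card H := by
  classical
  have h1 : B ⊆ (T ×ˢ (Finset.univ.filter (fun x => x ∈ H))).image (fun y => y.1 + y.2) := by
    intro b hb
    obtain ⟨t, ht, x, hx, rfl⟩ := h b hb
    rw [Finset.mem_image]
    exact ⟨(t, x), Finset.mem_product.mpr ⟨ht, by rw [mem_filter]; exact ⟨mem_univ _, hx⟩⟩, rfl⟩
  refine (Finset.card_le_card h1).trans (Finset.card_image_le.trans ?_)
  rw [Finset.card_product]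
  apply Nat.mul_le_mul_left
  rw [Nat.card_eq_fintype_card]
  exact (Fintype.card_subtype (fun x => x ∈ H)).ge

end general

section cyclic

variable {n : ℕ} [NeZero n]

lemma order_two_unique {u v : ZMod n} (hu : addOrderOf u = 2) (hv : addOrderOf v = 2) : u = v := by
  have key : ∀ w : ZMod n, addOrderOf w = 2 → 2 * w.val = n := by
    intro w hw
    have h0 : w ≠ 0 := by
      rintro rfl
      rw [addOrderOf_zero] at hw
      omega
    have h1 : 2 • w = 0 := by rw [← hw]; exact addOrderOf_nsmul_eq_zero w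
    have h2 : ((2 * w.val : ℕ) : ZMod n) = 0 := by
      rw [Nat.cast_mul, ZMod.natCast_zmod_val]
      rw [← h1, nsmul_eq_mul]
    rw [ZMod.natCast_eq_zero_iff] at h2
    have h3 : 0 < w.val := by
      rw [Nat.pos_iff_ne_zero]
      intro h
      exact h0 ((ZMod.val_eq_zero w).mp h)
    have h4 := ZMod.val_lt w
    obtain ⟨c, hc⟩ := h2
    have h5 : c = 1 := by
      rcases Nat.lt_or_ge c 1 with h | h
      · have : c = 0 := by omega
        subst this
        omega
      · rcases Nat.lt_or_ge 1 c with h' | h'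
        · have : n * 2 ≤ n * c := Nat.mul_le_mul_left _ h'
          omega
        · omega
    rw [h5, mul_one] at hc
    exact hc
  have h1 := key u hu
  have h2 := key v hv
  apply ZMod.val_injective n
  omega

lemma exists_order_two {K : AddSubgroup (ZMod n)} (h : 2 ∣ Nat.card K) :
    ∃ u ∈ K, addOrderOf u = 2 := by
  have hf : Finite K := inferInstance
  obtain ⟨u, hu⟩ := exists_prime_addOrderOf_dvd_card' (G := K) 2 h
  refine ⟨u.1, u.2, ?_⟩
  rw [← hu]
  exact AddSubgroup.addOrderOf_coe u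

/-- no even sized set of representatives of a subgroup of even order is a coset -/
lemma strict {B T : Finset (ZMod n)} {H : AddSubgroup (ZMod n)} {a : ℕ} (hB : #B = 2 ^ a)
    (hcov : ∀ b ∈ B, ∃ t ∈ T, ∃ x ∈ H, b = t + x) (hH : 2 ≤ Nat.card H) (hHd : Nat.card H ∣ 2 ^ a)
    (hT : 2 ≤ #T) : 2 ^ a < #(T + T) * Nat.card H := by
  by_contra hcon
  push Not at hcon
  have h1 := card_le_of_cover hcov
  rw [hB] at h1
  obtain ⟨x0, hx0⟩ : T.Nonempty := Finset.card_pos.mp (by omega)
  have h2 : #(T + T) ≤ #T := by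
    have h3 : #(T + T) * Nat.card H ≤ #T * Nat.card H := hcon.trans h1
    exact Nat.le_of_mul_le_mul_right h3 (by omega)
  obtain ⟨K, hK, hKc⟩ := coset_of_small h2 hx0
  have h3 : #T ≤ #(T + T) := by
    rw [← Finset.card_image_of_injective T (add_right_injective x0)]
    apply Finset.card_le_card
    intro z hz
    obtain ⟨t, ht, rfl⟩ := Finset.mem_image.mp hz
    exact Finset.add_mem_add hx0 ht
  have h4 : #T * Nat.card H = 2 ^ a := by
    apply le_antisymm _ h1
    exact (Nat.mul_le_mul_right _ h3).trans hcon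
  have heven : ∀ d : ℕ, d ∣ 2 ^ a → 2 ≤ d → 2 ∣ d := by
    intro d hd h2d
    obtain ⟨j, _, rfl⟩ := (Nat.dvd_prime_pow Nat.prime_two).mp hd
    rcases Nat.eq_zero_or_pos j with h | h
    · subst h; omega
    · exact dvd_pow_self 2 (by omega)
  obtain ⟨u, huK, hu⟩ := exists_order_two (K := K) (by rw [hKc]; exact heven _ ⟨_, h4.symm⟩ hT)
  obtain ⟨v, hvH, hv⟩ := exists_order_two (K := H) (heven _ hHd hH)
  have huv := order_two_unique hu hv
  subst huv
  have hu0 : u ≠ 0 := by
    rintro rfl
    rw [addOrderOf_zero] at hu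
    omega
  have hx1 : x0 + u ∈ T := by
    rw [hK, add_sub_cancel_left]; exact huK
  have h5 : ∀ b ∈ B, ∃ t ∈ T.erase (x0 + u), ∃ x ∈ H, b = t + x := by
    intro b hb
    obtain ⟨t, ht, x, hx, rfl⟩ := hcov b hb
    by_cases htx : t = x0 + u
    · subst htx
      refine ⟨x0, ?_, u + x, H.add_mem hvH hx, by rw [add_assoc]⟩
      rw [Finset.mem_erase]
      refine ⟨?_, hx0⟩
      intro h
      exact hu0 (by simpa using h)
    · exact ⟨t, Finset.mem_erase.mpr ⟨htx, ht⟩, x, hx, rfl⟩
  have h6 := card_le_of_cover h5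
  rw [hB, Finset.card_erase_of_mem hx1] at h6
  have h7 : (#T - 1) * Nat.card H < #T * Nat.card H :=
    Nat.mul_lt_mul_of_pos_right (by omega) (by omega)
  omega

end cyclic

section model

variable (a N : ℕ)

/-- the modulus -/
abbrev nn : ℕ := 2 ^ (a + 1) * N

/-- reduction modulo `N` -/
def pr : ZMod (nn a N) →+ ZMod N :=
  (ZMod.castHom (Dvd.intro_left (2 ^ (a + 1)) rfl : N ∣ nn a N) (ZMod N)).toAddMonoidHom

/-- the subgroup of order `2 ^ (a + 1)` -/
def K2 : AddSubgroup (ZMod (nn a N)) := AddSubgroup.zmultiples ((N : ℕ) : ZMod (nn a N))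

/-- the subgroup of order `2 ^ a` -/
def K3 : AddSubgroup (ZMod (nn a N)) := AddSubgroup.zmultiples ((2 * N : ℕ) : ZMod (nn a N))

variable {a N}

lemma pr_natCast (x : ℕ) : pr a N (x : ZMod (nn a N)) = (x : ZMod N) := by
  simp [pr]

lemma card_K2 (hN : 0 < N) : Nat.card (K2 a N) = 2 ^ (a + 1) := by
  have h0 : nn a N ≠ 0 := by unfold nn; positivity
  rw [K2, Nat.card_zmultiples, ZMod.addOrderOf_coe N h0]
  unfold nn
  rw [Nat.gcd_eq_right (Dvd.intro_left _ rfl), Nat.mul_div_cancel _ hN]

lemma card_K3 (hN : 0 < N) : Nat.card (K3 a N) = 2 ^ a := by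
  have h0 : nn a N ≠ 0 := by unfold nn; positivity
  rw [K3, Nat.card_zmultiples, ZMod.addOrderOf_coe (2 * N) h0]
  have h1 : nn a N = 2 ^ a * (2 * N) := by unfold nn; ring
  rw [h1, Nat.gcd_eq_right (Dvd.intro_left _ rfl), Nat.mul_div_cancel _ (by positivity)]

lemma K3_le : K3 a N ≤ K2 a N := by
  rw [K3, AddSubgroup.zmultiples_le]
  have h1 : ((2 * N : ℕ) : ZMod (nn a N)) = 2 • ((N : ℕ) : ZMod (nn a N)) := by
    rw [nsmul_eq_mul]; push_cast; ring
  rw [h1]
  exact (K2 a N).nsmul_mem (AddSubgroup.mem_zmultiples _) 2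

lemma mem_K2 [NeZero N] {x : ZMod (nn a N)} : x ∈ K2 a N ↔ pr a N x = 0 := by
  have hne : NeZero (nn a N) := ⟨by unfold nn; have := NeZero.pos N; positivity⟩
  constructor
  · intro h
    obtain ⟨k, rfl⟩ := AddSubgroup.mem_zmultiples_iff.mp h
    rw [map_zsmul, pr_natCast, ZMod.natCast_self, smul_zero]
  · intro h
    rw [← ZMod.natCast_zmod_val x, pr_natCast, ZMod.natCast_eq_zero_iff] at h
    obtain ⟨c, hc⟩ := h
    have h1 : x = c • ((N : ℕ) : ZMod (nn a N)) := by
      rw [nsmul_eq_mul, ← Nat.cast_mul, mul_comm c N, ← hc, ZMod.natCast_zmod_val]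
    rw [h1]
    exact (K2 a N).nsmul_mem (AddSubgroup.mem_zmultiples _) c

variable [NeZero N]

instance : NeZero (nn a N) := ⟨by unfold nn; have := NeZero.pos N; positivity⟩

variable (a N) in
open scoped Classical in
/-- elements of `K2` -/
noncomputable def B2 : Finset (ZMod (nn a N)) := Finset.univ.filter (fun x => x ∈ K2 a N)

variable (a N) in
open scoped Classical in
/-- elements of `K3` -/
noncomputable def B3 : Finset (ZMod (nn a N)) := Finset.univ.filter (fun x => x ∈ K3 a N)

lemma mem_B2 {x : ZMod (nn a N)} : x ∈ B2 a N ↔ x ∈ K2 a N := by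
  simp only [B2, Finset.mem_filter, Finset.mem_univ, true_and]

lemma mem_B3 {x : ZMod (nn a N)} : x ∈ B3 a N ↔ x ∈ K3 a N := by
  simp only [B3, Finset.mem_filter, Finset.mem_univ, true_and]

lemma card_B2 : #(B2 a N) = 2 ^ (a + 1) := by
  classical
  rw [← card_K2 (a := a) (NeZero.pos N), Nat.card_eq_fintype_card, Fintype.card_subtype]
  congr 1

lemma card_B3 : #(B3 a N) = 2 ^ a := by
  classical
  rw [← card_K3 (a := a) (NeZero.pos N), Nat.card_eq_fintype_card, Fintype.card_subtype]
  congr 1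

variable (a N) in
/-- the set -/
noncomputable def AA : Finset (ZMod (nn a N)) :=
  B2 a N ∪ ((B3 a N).image (fun x => 1 + x) ∪ (B3 a N).image (fun x => 3 + x))

lemma pr_one : pr a N 1 = 1 := by
  have := pr_natCast (a := a) (N := N) 1
  simpa using this

lemma pr_three : pr a N 3 = 3 := by
  have := pr_natCast (a := a) (N := N) 3
  simpa using this

lemma pr_B2 {x : ZMod (nn a N)} (h : x ∈ B2 a N) : pr a N x = 0 := mem_K2.mp (mem_B2.mp h)

lemma pr_B3 {x : ZMod (nn a N)} (h : x ∈ B3 a N) : pr a N x = 0 :=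
  mem_K2.mp (K3_le (mem_B3.mp h))

/-- small integers are nonzero modulo `N` -/
lemma small_ne (hN : 7 ≤ N) {c : ℕ} (hc : 0 < c) (hc' : c < 7) : ((c : ℕ) : ZMod N) ≠ 0 := by
  intro h
  rw [ZMod.natCast_eq_zero_iff] at h
  have := Nat.le_of_dvd hc h
  omega

lemma card_AA (hN : 7 ≤ N) : #(AA a N) = 4 * 2 ^ a := by
  have e1 : (1 : ZMod N) ≠ 0 := by simpa using small_ne hN (c := 1) (by norm_num) (by norm_num)
  have e3 : (3 : ZMod N) ≠ 0 := by simpa using small_ne hN (c := 3) (by norm_num) (by norm_num)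
  have e2 : (2 : ZMod N) ≠ 0 := by simpa using small_ne hN (c := 2) (by norm_num) (by norm_num)
  rw [AA, Finset.card_union_of_disjoint, Finset.card_union_of_disjoint, card_B2,
    Finset.card_image_of_injective _ (add_right_injective _),
    Finset.card_image_of_injective _ (add_right_injective _), card_B3]
  · ring
  · rw [Finset.disjoint_left]
    intro x hx hx'
    obtain ⟨y, hy, rfl⟩ := Finset.mem_image.mp hx
    obtain ⟨z, hz, he⟩ := Finset.mem_image.mp hx'
    have h1 := congrArg (pr a N) he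
    simp only [map_add, pr_one, pr_three, pr_B3 hy, pr_B3 hz, add_zero] at h1
    apply e2
    have : (2 : ZMod N) = 3 - 1 := by norm_num
    rw [this, h1, sub_self]
  · rw [Finset.disjoint_left]
    intro x hx hx'
    rw [Finset.mem_union] at hx'
    rcases hx' with hx' | hx'
    · obtain ⟨z, hz, he⟩ := Finset.mem_image.mp hx'
      have h1 := congrArg (pr a N) he
      simp only [map_add, pr_one, pr_B3 hz, pr_B2 hx, add_zero] at h1
      exact e1 h1
    · obtain ⟨z, hz, he⟩ := Finset.mem_image.mp hx'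
      have h1 := congrArg (pr a N) he
      simp only [map_add, pr_three, pr_B3 hz, pr_B2 hx, add_zero] at h1
      exact e3 h1

lemma card_AA_add : #(AA a N + AA a N) ≤ 9 * 2 ^ a := by
  have hsub : AA a N + AA a N ⊆ (B2 a N) ∪ ((B2 a N).image (fun x => 1 + x) ∪
      ((B2 a N).image (fun x => 3 + x) ∪ ((B3 a N).image (fun x => 2 + x) ∪
      ((B3 a N).image (fun x => 4 + x) ∪ (B3 a N).image (fun x => 6 + x))))) := by
    intro z hz
    obtain ⟨x, hx, y, hy, rfl⟩ := Finset.mem_add.mp hz
    simp only [AA, Finset.mem_union, Finset.mem_image, mem_B2, mem_B3] at hx hy ⊢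
    rcases hx with hx | ⟨x, hx, rfl⟩ | ⟨x, hx, rfl⟩ <;> rcases hy with hy | ⟨y, hy, rfl⟩ | ⟨y, hy, rfl⟩
    · left; exact (K2 a N).add_mem hx hy
    · right; left; exact ⟨x + y, (K2 a N).add_mem hx (K3_le hy), by ring⟩
    · right; right; left; exact ⟨x + y, (K2 a N).add_mem hx (K3_le hy), by ring⟩
    · right; left; exact ⟨x + y, (K2 a N).add_mem (K3_le hx) hy, by ring⟩
    · right; right; right; left; exact ⟨x + y, (K3 a N).add_mem hx hy, by ring⟩
    · right; right; right; right; left; exact ⟨x + y, (K3 a N).add_mem hx hy, by ring⟩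
    · right; right; left; exact ⟨x + y, (K2 a N).add_mem (K3_le hx) hy, by ring⟩
    · right; right; right; right; left; exact ⟨x + y, (K3 a N).add_mem hx hy, by ring⟩
    · right; right; right; right; right; exact ⟨x + y, (K3 a N).add_mem hx hy, by ring⟩
  refine (Finset.card_le_card hsub).trans ?_
  have hi2 : ∀ c : ZMod (nn a N), #((B2 a N).image (fun x => c + x)) = 2 ^ (a + 1) := by
    intro c
    rw [Finset.card_image_of_injective _ (add_right_injective _), card_B2]
  have hi3 : ∀ c : ZMod (nn a N), #((B3 a N).image (fun x => c + x)) = 2 ^ a := by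
    intro c
    rw [Finset.card_image_of_injective _ (add_right_injective _), card_B3]
  refine (Finset.card_union_le _ _).trans ?_
  refine (Nat.add_le_add_left (Finset.card_union_le _ _) _).trans ?_
  refine (Nat.add_le_add_left (Nat.add_le_add_left (Finset.card_union_le _ _) _) _).trans ?_
  refine (Nat.add_le_add_left (Nat.add_le_add_left (Nat.add_le_add_left
    (Finset.card_union_le _ _) _) _) _).trans ?_
  refine (Nat.add_le_add_left (Nat.add_le_add_left (Nat.add_le_add_left (Nat.add_le_add_left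
    (Finset.card_union_le _ _) _) _) _) _).trans ?_
  rw [card_B2, hi2, hi2, hi3, hi3, hi3]
  apply le_of_eq
  ring

lemma zero_mem_AA : (0 : ZMod (nn a N)) ∈ AA a N := by
  rw [AA, Finset.mem_union, mem_B2]
  left; exact (K2 a N).zero_mem

lemma one_mem_AA : (1 : ZMod (nn a N)) ∈ AA a N := by
  rw [AA, Finset.mem_union, Finset.mem_union, Finset.mem_image]
  right; left
  exact ⟨0, mem_B3.mpr (K3 a N).zero_mem, add_zero _⟩

lemma three_mem_AA : (3 : ZMod (nn a N)) ∈ AA a N := by
  rw [AA, Finset.mem_union, Finset.mem_union, Finset.mem_image, Finset.mem_image]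
  right; right
  exact ⟨0, mem_B3.mpr (K3 a N).zero_mem, add_zero _⟩

lemma card_le_add_right {G : Type*} [AddCommGroup G] [DecidableEq G] {S T : Finset G}
    (hT : T.Nonempty) : #S ≤ #(S + T) := by
  obtain ⟨y, hy⟩ := hT
  rw [← Finset.card_image_of_injective S (add_left_injective y)]
  apply Finset.card_le_card
  intro z hz
  obtain ⟨x, hx, rfl⟩ := Finset.mem_image.mp hz
  exact Finset.add_mem_add hx hy

lemma case_one [Fact N.Prime] (hN7 : 7 ≤ N) {P : Finset (ZMod (nn a N))}
    {H : AddSubgroup (ZMod (nn a N))} (hH : H ≤ K2 a N)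
    (hcov : ∀ b ∈ AA a N, ∃ t ∈ P, ∃ x ∈ H, b = t + x)
    (hb : #(P + P) * Nat.card H ≤ #P * Nat.card H + 5 * 2 ^ a)
    (hr : 2 * #(P.image (pr a N)) ≤ N + 1) :
    Nat.card H = 1 ∧ P.image (pr a N) = {0, 1, 3} := by
  have e1 : (1 : ZMod N) ≠ 0 := by simpa using small_ne hN7 (c := 1) (by norm_num) (by norm_num)
  have e2 : (2 : ZMod N) ≠ 0 := by simpa using small_ne hN7 (c := 2) (by norm_num) (by norm_num)
  have e3 : (3 : ZMod N) ≠ 0 := by simpa using small_ne hN7 (c := 3) (by norm_num) (by norm_num)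
  have e4 : (4 : ZMod N) ≠ 0 := by simpa using small_ne hN7 (c := 4) (by norm_num) (by norm_num)
  have e5 : (5 : ZMod N) ≠ 0 := by simpa using small_ne hN7 (c := 5) (by norm_num) (by norm_num)
  have e6 : (6 : ZMod N) ≠ 0 := by simpa using small_ne hN7 (c := 6) (by norm_num) (by norm_num)
  set h := Nat.card H with hh
  have hpos : 0 < h := Nat.card_pos
  have hprH : ∀ x ∈ H, pr a N x = 0 := fun x hx => mem_K2.mp (hH hx)
  have cov : ∀ b ∈ AA a N, ∃ t ∈ fib (pr a N) P (pr a N b), ∃ x ∈ H, b = t + x := by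
    intro b hb
    obtain ⟨t, ht, x, hx, he⟩ := hcov b hb
    refine ⟨t, ?_, x, hx, he⟩
    rw [mem_fib]
    refine ⟨ht, ?_⟩
    rw [he, map_add, hprH x hx, add_zero]
  set T0 := fib (pr a N) P 0 with hT0
  set T1 := fib (pr a N) P 1 with hT1
  set T3 := fib (pr a N) P 3 with hT3
  have cov0 : ∀ b ∈ B2 a N, ∃ t ∈ T0, ∃ x ∈ H, b = t + x := by
    intro b hb
    have h1 := cov b (by rw [AA, Finset.mem_union]; left; exact hb)
    rw [pr_B2 hb] at h1
    exact h1
  have cov1 : ∀ b ∈ (B3 a N).image (fun x => 1 + x), ∃ t ∈ T1, ∃ x ∈ H, b = t + x := by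
    intro b hb
    have h1 := cov b (by rw [AA, Finset.mem_union, Finset.mem_union]; right; left; exact hb)
    obtain ⟨y, hy, rfl⟩ := Finset.mem_image.mp hb
    rw [map_add, pr_one, pr_B3 hy, add_zero] at h1
    exact h1
  have c0 : 2 ^ (a + 1) ≤ #T0 * h := by
    have := card_le_of_cover cov0
    rwa [card_B2] at this
  have c1 : 2 ^ a ≤ #T1 * h := by
    have := card_le_of_cover cov1
    rwa [Finset.card_image_of_injective _ (add_right_injective _), card_B3] at this
  have n0 : T0.Nonempty := by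
    rw [← Finset.card_pos]
    rcases Nat.eq_zero_or_pos #T0 with h0 | h0
    · rw [h0] at c0; simp at c0
    · exact h0
  have n1 : T1.Nonempty := by
    rw [← Finset.card_pos]
    rcases Nat.eq_zero_or_pos #T1 with h0 | h0
    · rw [h0] at c1; simp at c1
    · exact h0
  have n3 : T3.Nonempty := by
    obtain ⟨t, ht, _⟩ := cov 3 three_mem_AA
    rw [pr_three] at ht
    exact ⟨t, ht⟩
  have himg : ({0, 1, 3} : Finset (ZMod N)) ⊆ P.image (pr a N) := by
    intro q hq
    rw [Finset.mem_insert, Finset.mem_insert, Finset.mem_singleton] at hq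
    rw [Finset.mem_image]
    rcases hq with rfl | rfl | rfl
    · obtain ⟨t, ht⟩ := n0
      exact ⟨t, ((mem_fib _).mp ht).1, ((mem_fib _).mp ht).2⟩
    · obtain ⟨t, ht⟩ := n1
      exact ⟨t, ((mem_fib _).mp ht).1, ((mem_fib _).mp ht).2⟩
    · obtain ⟨t, ht⟩ := n3
      exact ⟨t, ((mem_fib _).mp ht).1, ((mem_fib _).mp ht).2⟩
  have h13 : (1 : ZMod N) ≠ 3 := by
    intro he
    apply e2
    have : (2 : ZMod N) = 3 - 1 := by norm_num
    rw [this, ← he, sub_self]
  have hcard3 : #({0, 1, 3} : Finset (ZMod N)) = 3 := by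
    rw [Finset.card_insert_of_notMem, Finset.card_insert_of_notMem, Finset.card_singleton]
    · rwa [Finset.mem_singleton]
    · rw [Finset.mem_insert, Finset.mem_singleton]
      rintro (h | h)
      · exact e1 h.symm
      · exact e3 h.symm
  have hr3 : 3 ≤ #(P.image (pr a N)) := by
    rw [← hcard3]; exact Finset.card_le_card himg
  have hp2 : 2 ^ (a + 1) = 2 * 2 ^ a := by ring
  have hpa : 0 < 2 ^ a := by positivity
  rcases Nat.lt_or_ge 3 #(P.image (pr a N)) with hr4 | hr4
  · -- at least four values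
    exfalso
    have h1 := card_add_ge (pr a N) P 0 hr
    have h2 : #P + 3 * #T0 ≤ #(P + P) := by
      refine le_trans ?_ h1
      apply Nat.add_le_add_left
      apply Nat.mul_le_mul_right
      omega
    have h3 := Nat.mul_le_mul_right h h2
    have h4 : (#P + 3 * #T0) * h = #P * h + 3 * (#T0 * h) := by ring
    omega
  · have heq : P.image (pr a N) = {0, 1, 3} := by
      symm
      apply Finset.eq_of_subset_of_card_le himg
      rw [hcard3]; exact hr4
    refine ⟨?_, heq⟩
    have hPc : #P = #T0 + #T1 + #T3 := by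
      rw [card_eq_sum_fib (pr a N) P]
      have h1 : ∑ q ∈ ({0, 1, 3} : Finset (ZMod N)), #(fib (pr a N) P q) =
          ∑ q : ZMod N, #(fib (pr a N) P q) := by
        apply Finset.sum_subset (Finset.subset_univ _)
        intro q _ hq
        rw [← heq] at hq
        rw [Finset.card_eq_zero, Finset.eq_empty_iff_forall_notMem]
        intro x hx
        rw [mem_fib] at hx
        exact hq (Finset.mem_image.mpr ⟨x, hx.1, hx.2⟩)
      rw [← h1, Finset.sum_insert, Finset.sum_insert, Finset.sum_singleton, ← hT0, ← hT1, ← hT3,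
        add_assoc]
      · rwa [Finset.mem_singleton]
      · rw [Finset.mem_insert, Finset.mem_singleton]
        rintro (h | h)
        · exact e1 h.symm
        · exact e3 h.symm
    have hPP : #(T0 + T0) + #(T0 + T1) + #(T1 + T1) + #(T0 + T3) + #(T1 + T3) + #(T3 + T3) ≤
        #(P + P) := by
      have hsub : ∀ q q' : ZMod N, fib (pr a N) P q + fib (pr a N) P q' ⊆
          fib (pr a N) (P + P) (q + q') := by
        intro q q' z hz
        obtain ⟨x, hx, y, hy, rfl⟩ := Finset.mem_add.mp hz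
        rw [mem_fib] at hx hy ⊢
        exact ⟨Finset.add_mem_add hx.1 hy.1, by rw [map_add, hx.2, hy.2]⟩
      have h00 : #(T0 + T0) ≤ #(fib (pr a N) (P + P) 0) := by
        have h := Finset.card_le_card (hsub 0 0)
        rw [show (0 : ZMod N) + 0 = 0 by norm_num] at h
        exact h
      have h01 : #(T0 + T1) ≤ #(fib (pr a N) (P + P) 1) := by
        have h := Finset.card_le_card (hsub 0 1)
        rw [show (0 : ZMod N) + 1 = 1 by norm_num] at h
        exact h
      have h11 : #(T1 + T1) ≤ #(fib (pr a N) (P + P) 2) := by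
        have h := Finset.card_le_card (hsub 1 1)
        rw [show (1 : ZMod N) + 1 = 2 by norm_num] at h
        exact h
      have h03 : #(T0 + T3) ≤ #(fib (pr a N) (P + P) 3) := by
        have h := Finset.card_le_card (hsub 0 3)
        rw [show (0 : ZMod N) + 3 = 3 by norm_num] at h
        exact h
      have h33 : #(T3 + T3) ≤ #(fib (pr a N) (P + P) 6) := by
        have h := Finset.card_le_card (hsub 3 3)
        rw [show (3 : ZMod N) + 3 = 6 by norm_num] at h
        exact h
      have h13 : #(T1 + T3) ≤ #(fib (pr a N) (P + P) 4) := by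
        have h := Finset.card_le_card (hsub 1 3)
        rw [show (1 : ZMod N) + 3 = 4 by norm_num] at h
        exact h
      have hne : ∀ c d : ℕ, c < d → d < 7 → ((c : ℕ) : ZMod N) ≠ ((d : ℕ) : ZMod N) := by
        intro c d hcd hd he
        have h1 : (((d - c : ℕ)) : ZMod N) = 0 := by
          rw [Nat.cast_sub hcd.le, he, sub_self]
        exact small_ne hN7 (by omega) (by omega) h1
      have hsum : ∑ q ∈ ({0, 1, 2, 3, 4, 6} : Finset ℕ), #(fib (pr a N) (P + P) ((q : ℕ) : ZMod N)) ≤
          #(P + P) := by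
        rw [card_eq_sum_fib (pr a N) (P + P)]
        have hinj : Set.InjOn (fun q : ℕ => ((q : ℕ) : ZMod N))
            (({0, 1, 2, 3, 4, 6} : Finset ℕ) : Set ℕ) := by
          intro c hc d hd he
          have hc7 : c < 7 := by
            simp only [Finset.coe_insert, Finset.coe_singleton, Set.mem_insert_iff,
              Set.mem_singleton_iff] at hc
            omega
          have hd7 : d < 7 := by
            simp only [Finset.coe_insert, Finset.coe_singleton, Set.mem_insert_iff,
              Set.mem_singleton_iff] at hd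
            omega
          rcases lt_trichotomy c d with h | h | h
          · exact absurd he (hne c d h hd7)
          · exact h
          · exact absurd he.symm (hne d c h hc7)
        rw [← Finset.sum_image (f := fun q => #(fib (pr a N) (P + P) q)) hinj]
        exact Finset.sum_le_sum_of_subset (Finset.subset_univ _)
      have hexp : ∑ q ∈ ({0, 1, 2, 3, 4, 6} : Finset ℕ), #(fib (pr a N) (P + P) ((q : ℕ) : ZMod N)) =
          #(fib (pr a N) (P + P) 0) + (#(fib (pr a N) (P + P) 1) + (#(fib (pr a N) (P + P) 2) +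
          (#(fib (pr a N) (P + P) 3) + (#(fib (pr a N) (P + P) 4) + #(fib (pr a N) (P + P) 6))))) := by
        rw [Finset.sum_insert (by decide), Finset.sum_insert (by decide),
          Finset.sum_insert (by decide), Finset.sum_insert (by decide),
          Finset.sum_insert (by decide), Finset.sum_singleton]
        simp only [Nat.cast_zero, Nat.cast_one, Nat.cast_ofNat]
      have hsum' := hexp ▸ hsum
      generalize #(fib (pr a N) (P + P) 0) = g0 at *
      generalize #(fib (pr a N) (P + P) 1) = g1 at *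
      generalize #(fib (pr a N) (P + P) 2) = g2 at *
      generalize #(fib (pr a N) (P + P) 3) = g3 at *
      generalize #(fib (pr a N) (P + P) 4) = g4 at *
      generalize #(fib (pr a N) (P + P) 6) = g6 at *
      omega
    have l01 : #T0 ≤ #(T0 + T1) := card_le_add_right n1
    have l11 : #T1 ≤ #(T1 + T1) := card_le_add_right n1
    have l03 : #T0 ≤ #(T0 + T3) := card_le_add_right n3
    have l13 : #T1 ≤ #(T1 + T3) := card_le_add_right n3
    have l33 : #T3 ≤ #(T3 + T3) := card_le_add_right n3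
    have hkey : #P + (#(T0 + T0) + #T0 + #T1) ≤ #(P + P) := by omega
    have hkey2 := Nat.mul_le_mul_right h hkey
    have hkey3 : (#P + (#(T0 + T0) + #T0 + #T1)) * h =
        #P * h + (#(T0 + T0) * h + #T0 * h + #T1 * h) := by ring
    by_contra hne1
    have hh2 : 2 ≤ h := by omega
    rcases Nat.lt_or_ge #T0 2 with ht | ht
    · -- one point above zero
      have ht1 : #T0 = 1 := by
        have := Finset.card_pos.mpr n0
        omega
      have e0 : #T0 * h = h := by rw [ht1, one_mul]
      have h5 : h ≤ #T1 * h := Nat.le_mul_of_pos_left _ (Finset.card_pos.mpr n1)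
      have h6 : h ≤ #(T0 + T0) * h :=
        Nat.le_mul_of_pos_left _ (Finset.card_pos.mpr (n0.add n0))
      omega
    · have hHd : h ∣ 2 ^ (a + 1) := by
        rw [hh, ← card_K2 (a := a) (NeZero.pos N)]
        exact AddSubgroup.card_dvd_of_le hH
      have h7 := strict card_B2 cov0 hh2 hHd ht
      rw [← hh] at h7
      omega

/-- three distinct elements of `{0, 1, 3}` are not in arithmetic progression -/
lemma no_ap3 (hN7 : 7 ≤ N) {x y z : ZMod N} (hx : x = 0 ∨ x = 1 ∨ x = 3)
    (hy : y = 0 ∨ y = 1 ∨ y = 3) (hz : z = 0 ∨ z = 1 ∨ z = 3) (hxy : x ≠ y) (hxz : x ≠ z)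
    (hyz : y ≠ z) (h : x + z = y + y) : False := by
  have e1 : (1 : ZMod N) ≠ 0 := by simpa using small_ne hN7 (c := 1) (by norm_num) (by norm_num)
  have e4 : (4 : ZMod N) ≠ 0 := by simpa using small_ne hN7 (c := 4) (by norm_num) (by norm_num)
  have e5 : (5 : ZMod N) ≠ 0 := by simpa using small_ne hN7 (c := 5) (by norm_num) (by norm_num)
  rcases hx with rfl | rfl | rfl <;> rcases hy with rfl | rfl | rfl <;>
    rcases hz with rfl | rfl | rfl <;>
    first
    | exact hxy rfl
    | exact hxz rfl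
    | exact hyz rfl
    | exact e1 (by linear_combination h)
    | exact e1 (by linear_combination -h)
    | exact e4 (by linear_combination h)
    | exact e4 (by linear_combination -h)
    | exact e5 (by linear_combination h)
    | exact e5 (by linear_combination -h)

/-- a progression does not project onto `{0, 1, 3}` -/
lemma ap_image [Fact N.Prime] (hN7 : 7 ≤ N) {P : Finset (ZMod (nn a N))} {g d : ZMod (nn a N)}
    {M : ℕ} (hP : ∀ x, x ∈ P ↔ ∃ i : ℕ, i < M ∧ x = g + i • d)
    (him : P.image (pr a N) = {0, 1, 3}) : False := by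
  have e1 : (1 : ZMod N) ≠ 0 := by simpa using small_ne hN7 (c := 1) (by norm_num) (by norm_num)
  have e2 : (2 : ZMod N) ≠ 0 := by simpa using small_ne hN7 (c := 2) (by norm_num) (by norm_num)
  have e3 : (3 : ZMod N) ≠ 0 := by simpa using small_ne hN7 (c := 3) (by norm_num) (by norm_num)
  have hcard : #({0, 1, 3} : Finset (ZMod N)) = 3 := by
    rw [Finset.card_insert_of_notMem, Finset.card_insert_of_notMem, Finset.card_singleton]
    · rw [Finset.mem_singleton]
      intro h
      exact e2 (by linear_combination -h)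
    · rw [Finset.mem_insert, Finset.mem_singleton]
      rintro (h | h)
      · exact e1 h.symm
      · exact e3 h.symm
  have hM : 3 ≤ M := by
    have h1 : P ⊆ (Finset.range M).image (fun i : ℕ => g + i • d) := by
      intro x hx
      obtain ⟨i, hi, rfl⟩ := (hP x).mp hx
      exact Finset.mem_image.mpr ⟨i, Finset.mem_range.mpr hi, rfl⟩
    have h2 := Finset.card_le_card h1
    have h3 := h2.trans Finset.card_image_le
    rw [Finset.card_range] at h3
    have h4 : #(P.image (pr a N)) ≤ #P := Finset.card_image_le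
    rw [him, hcard] at h4
    omega
  have hmem : ∀ i : ℕ, i < M → pr a N g + i • pr a N d ∈ ({0, 1, 3} : Finset (ZMod N)) := by
    intro i hi
    rw [← him, Finset.mem_image]
    exact ⟨g + i • d, (hP _).mpr ⟨i, hi, rfl⟩, by rw [map_add, map_nsmul]⟩
  have hd : pr a N d ≠ 0 := by
    intro h0
    have h1 : ∀ q ∈ ({0, 1, 3} : Finset (ZMod N)), q = pr a N g := by
      intro q hq
      rw [← him, Finset.mem_image] at hq
      obtain ⟨x, hx, rfl⟩ := hq
      obtain ⟨i, _, rfl⟩ := (hP x).mp hx
      rw [map_add, map_nsmul, h0, smul_zero, add_zero]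
    have h2 := h1 0 (by simp)
    have h3 := h1 1 (by simp)
    exact e1 (by rw [h3, ← h2])
  have h0 := hmem 0 (by omega)
  have h1 := hmem 1 (by omega)
  have h2 := hmem 2 (by omega)
  simp only [Finset.mem_insert, Finset.mem_singleton, zero_smul, one_smul, add_zero] at h0 h1 h2
  refine no_ap3 hN7 h0 h1 h2 ?_ ?_ ?_ ?_
  · intro h
    exact hd (by linear_combination -h)
  · intro h
    have h3 : 2 * pr a N d = 0 := by
      have h4 : (2 : ℕ) • pr a N d = 2 * pr a N d := by rw [nsmul_eq_mul]; norm_num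
      rw [h4] at h
      linear_combination -h
    rcases mul_eq_zero.mp h3 with h5 | h5
    · exact e2 h5
    · exact hd h5
  · intro h
    have h4 : (2 : ℕ) • pr a N d = 2 * pr a N d := by rw [nsmul_eq_mul]; norm_num
    rw [h4] at h
    exact hd (by linear_combination -h)
  · have h4 : (2 : ℕ) • pr a N d = 2 * pr a N d := by rw [nsmul_eq_mul]; norm_num
    rw [h4]
    ring

/-- a subgroup containing `0 - g` and `1 - g` is everything -/
lemma top_of_mem {n : ℕ} {K : AddSubgroup (ZMod n)} {g : ZMod n} (h0 : 0 - g ∈ K)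
    (h1 : 1 - g ∈ K) : K = ⊤ := by
  have h2 : (1 : ZMod n) ∈ K := by
    have := K.sub_mem h1 h0
    simpa using this
  rw [eq_top_iff]
  intro z _
  obtain ⟨k, rfl⟩ := ZMod.intCast_surjective z
  have := K.zsmul_mem h2 k
  simpa using this

/-- an element with odd value has order divisible by `2 ^ (a + 1)` -/
lemma odd_order [NeZero N] {x : ZMod (nn a N)} (hx : Odd x.val) {K : AddSubgroup (ZMod (nn a N))}
    (hxK : x ∈ K) : 2 ^ (a + 1) ∣ Nat.card K := by
  have hne : NeZero (nn a N) := ⟨by unfold nn; have := NeZero.pos N; positivity⟩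
  have h1 : addOrderOf x ∣ Nat.card K := by
    rw [← Nat.card_zmultiples]
    exact AddSubgroup.card_dvd_of_le (by rwa [AddSubgroup.zmultiples_le])
  refine dvd_trans ?_ h1
  have h2 : addOrderOf x • x = 0 := addOrderOf_nsmul_eq_zero x
  have h3 : ((addOrderOf x * x.val : ℕ) : ZMod (nn a N)) = 0 := by
    push_cast
    rw [ZMod.natCast_zmod_val, ← nsmul_eq_mul]
    exact h2
  rw [ZMod.natCast_eq_zero_iff] at h3
  have h4 : 2 ^ (a + 1) ∣ addOrderOf x * x.val := (Dvd.intro _ rfl).trans h3
  exact (Nat.Coprime.pow_left _ (Nat.coprime_two_left.mpr hx)).dvd_of_dvd_mul_right h4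

/-- if `H` is not contained in `K2` then its order is divisible by `N` -/
lemma dvd_card_of_not_le [hp : Fact N.Prime] {H : AddSubgroup (ZMod (nn a N))}
    (hH : ¬ H ≤ K2 a N) : N ∣ Nat.card H := by
  have h1 : Nat.card (H.map (pr a N)) ∣ Nat.card H := AddSubgroup.card_map_dvd H (pr a N)
  have hc : Nat.card (ZMod N) = N := Nat.card_zmod N
  have hf : Fact (Nat.Prime (Nat.card (ZMod N))) := ⟨by rw [hc]; exact hp.out⟩
  rcases (H.map (pr a N)).eq_bot_or_eq_top_of_prime_card with h2 | h2
  · exfalso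
    apply hH
    intro x hx
    rw [mem_K2]
    have h3 : pr a N x ∈ H.map (pr a N) := AddSubgroup.mem_map_of_mem _ hx
    rw [h2] at h3
    exact AddSubgroup.mem_bot.mp h3
  · rw [h2, AddSubgroup.card_top, hc] at h1
    exact h1

/-- subgroup of even elements is proper -/
lemma exists_odd [NeZero N] {K : AddSubgroup (ZMod (nn a N))} {L : AddSubgroup (ZMod (nn a N))}
    (h : K ⊔ L = ⊤) : (∃ x ∈ K, Odd x.val) ∨ (∃ x ∈ L, Odd x.val) := by
  have hne : NeZero (nn a N) := ⟨by unfold nn; have := NeZero.pos N; positivity⟩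
  have hdvd : 2 ∣ nn a N := by
    unfold nn
    exact (dvd_pow_self 2 (by omega)).mul_right N
  let φ : ZMod (nn a N) →+ ZMod 2 := (ZMod.castHom hdvd (ZMod 2)).toAddMonoidHom
  have hφ : ∀ x : ZMod (nn a N), φ x = ((x.val : ℕ) : ZMod 2) := by
    intro x
    change ZMod.castHom hdvd (ZMod 2) x = _
    rw [ZMod.castHom_apply, ZMod.natCast_val]
  by_contra hcon
  push Not at hcon
  have hker : ∀ x : ZMod (nn a N), ¬ Odd x.val → x ∈ φ.ker := by
    intro x hx
    rw [AddMonoidHom.mem_ker, hφ, ZMod.natCast_eq_zero_iff]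
    exact (Nat.not_odd_iff_even.mp hx).two_dvd
  have h1 : K ⊔ L ≤ φ.ker := by
    apply sup_le
    · intro x hx
      exact hker x (hcon.1 x hx)
    · intro x hx
      exact hker x (hcon.2 x hx)
  rw [h] at h1
  have h2 : (1 : ZMod (nn a N)) ∈ φ.ker := h1 (AddSubgroup.mem_top _)
  rw [AddMonoidHom.mem_ker] at h2
  change ZMod.castHom hdvd (ZMod 2) 1 = 0 at h2
  rw [map_one] at h2
  exact one_ne_zero h2

end model

/-- An arithmetic progression in `ℤ_n` with `M ≥ 2` terms `g, g + d, …, g + (M - 1) d`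
(repetitions allowed, so cosets of nonzero subgroups count, singletons `d = 0` too). -/
def IsAP {n : ℕ} (P : Finset (ZMod n)) : Prop :=
  ∃ (g d : ZMod n) (M : ℕ), 2 ≤ M ∧ ∀ x, x ∈ P ↔ ∃ i : ℕ, i < M ∧ x = g + i • d

section final

variable {a N : ℕ}

/-- the second case: `H` is not contained in `K2` -/
lemma case_two [NeZero N] [Fact N.Prime] {P : Finset (ZMod (nn a N))}
    {H : AddSubgroup (ZMod (nn a N))} (hHtop : H ≠ ⊤) (hH : ¬ H ≤ K2 a N) (hNb : 5 * 2 ^ a < N)
    (hN2 : N.Coprime 2)
    (hcov : ∀ b ∈ AA a N, ∃ t ∈ P, ∃ x ∈ H, b = t + x)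
    (hb : #(P + P) * Nat.card H ≤ #P * Nat.card H + 5 * 2 ^ a) :
    2 ^ (a + 1) ≤ #P ∧ ∀ z : ZMod (nn a N), ∃ t ∈ P, ∃ x ∈ H, z = t + x := by
  have hne : NeZero (nn a N) := ⟨by unfold nn; have := NeZero.pos N; positivity⟩
  have hNH := dvd_card_of_not_le hH
  have hHpos : 0 < Nat.card H := Nat.card_pos
  have hNle : N ≤ Nat.card H := Nat.le_of_dvd hHpos hNH
  have hPP : #(P + P) ≤ #P := by
    by_contra hcon
    push Not at hcon
    have h1 : (#P + 1) * Nat.card H ≤ #(P + P) * Nat.card H := Nat.mul_le_mul_right _ hcon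
    rw [add_mul, one_mul] at h1
    omega
  obtain ⟨x0, hx0, w0, hw0, he0⟩ := hcov 0 zero_mem_AA
  obtain ⟨x1, hx1, w1, hw1, he1⟩ := hcov 1 one_mem_AA
  obtain ⟨K, hK, hKc⟩ := coset_of_small hPP hx0
  have htop : K ⊔ H = ⊤ := by
    apply top_of_mem (g := x0)
    · have h1 : (0 : ZMod (nn a N)) - x0 = w0 := by rw [he0]; ring
      rw [h1]
      exact AddSubgroup.mem_sup_right hw0
    · have h1 : (1 : ZMod (nn a N)) - x0 = (x1 - x0) + w1 := by rw [he1]; ring
      rw [h1]
      exact (K ⊔ H).add_mem (AddSubgroup.mem_sup_left ((hK x1).mp hx1))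
        (AddSubgroup.mem_sup_right hw1)
  constructor
  · rcases exists_odd htop with ⟨x, hx, hodd⟩ | ⟨x, hx, hodd⟩
    · have h1 := odd_order hodd hx
      rw [hKc] at h1
      exact Nat.le_of_dvd (Finset.card_pos.mpr ⟨x0, hx0⟩) h1
    · exfalso
      apply hHtop
      have h1 := odd_order hodd hx
      have h2 : 2 ^ (a + 1) * N ∣ Nat.card H :=
        (Nat.Coprime.pow_left _ hN2.symm).mul_dvd_of_dvd_of_dvd h1 hNH
      apply AddSubgroup.eq_top_of_card_eq
      apply Nat.le_antisymm (Nat.le_of_dvd Nat.card_pos (AddSubgroup.card_addSubgroup_dvd_card H))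
      rw [Nat.card_zmod]
      exact Nat.le_of_dvd hHpos h2
  · intro z
    have hz : z - x0 ∈ K ⊔ H := by rw [htop]; exact AddSubgroup.mem_top _
    obtain ⟨k, hk, x, hx, he⟩ := AddSubgroup.mem_sup.mp hz
    refine ⟨x0 + k, ?_, x, hx, ?_⟩
    · rw [hK, add_sub_cancel_left]; exact hk
    · rw [add_assoc, he]; ring

/-- the sumset of a progression -/
lemma card_ap_add {n : ℕ} [NeZero n] {P : Finset (ZMod n)} {g d : ZMod n} {M : ℕ} (hM : 2 ≤ M)
    (hP : ∀ x, x ∈ P ↔ ∃ i : ℕ, i < M ∧ x = g + i • d) :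
    min (2 * M - 1) (addOrderOf d) ≤ #(P + P) := by
  have h1 : (Finset.range (min (2 * M - 1) (addOrderOf d))).image
      (fun i : ℕ => (g + g) + i • d) ⊆ P + P := by
    intro z hz
    obtain ⟨i, hi, rfl⟩ := Finset.mem_image.mp hz
    rw [Finset.mem_range] at hi
    have hi' : i < 2 * M - 1 := lt_of_lt_of_le hi (min_le_left _ _)
    rw [Finset.mem_add]
    refine ⟨g + (min i (M - 1)) • d, (hP _).mpr ⟨_, by omega, rfl⟩,
      g + (i - min i (M - 1)) • d, (hP _).mpr ⟨_, by omega, rfl⟩, ?_⟩
    have h2 : i • d = (min i (M - 1)) • d + (i - min i (M - 1)) • d := by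
      rw [← add_smul]
      congr 1
      omega
    rw [h2]
    abel
  have h3 := Finset.card_le_card h1
  rw [Finset.card_image_of_injOn, Finset.card_range] at h3
  · exact h3
  · intro i hi j hj he
    rw [Finset.coe_range, Set.mem_Iio] at hi hj
    have h4 : i • d = j • d := add_left_cancel he
    exact nsmul_injOn_Iio_addOrderOf (lt_of_lt_of_le hi (min_le_right _ _))
      (lt_of_lt_of_le hj (min_le_right _ _)) h4

/-- first case for progressions: the set `P + H` is nearly everything -/
lemma ap_big [NeZero N] [Fact N.Prime] (hN7 : 7 ≤ N) {P : Finset (ZMod (nn a N))}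
    {H : AddSubgroup (ZMod (nn a N))} (hH : H ≤ K2 a N) (hNb : 10 * 2 ^ a < N)
    (hcov : ∀ b ∈ AA a N, ∃ t ∈ P, ∃ x ∈ H, b = t + x)
    (hb : #(P + P) * Nat.card H ≤ #P * Nat.card H + 5 * 2 ^ a) (hAP : IsAP P) :
    nn a N ≤ ((P : Set (ZMod (nn a N))) + (H : Set (ZMod (nn a N)))).ncard + 5 * 2 ^ a := by
  classical
  have hne : NeZero (nn a N) := ⟨by unfold nn; have := NeZero.pos N; positivity⟩
  obtain ⟨g, d, M, hM, hP⟩ := hAP
  have hHpos : 0 < Nat.card H := Nat.card_pos
  rcases Nat.lt_or_ge (N + 1) (2 * #(P.image (pr a N))) with hr | hr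
  swap
  · exact (ap_image hN7 hP (case_one hN7 hH hcov hb hr).2).elim
  have hPim : #(P.image (pr a N)) ≤ #P := Finset.card_image_le
  have hPM : #P ≤ M := by
    have h1 : P ⊆ (Finset.range M).image (fun i : ℕ => g + i • d) := by
      intro x hx
      obtain ⟨i, hi, rfl⟩ := (hP x).mp hx
      exact Finset.mem_image.mpr ⟨i, Finset.mem_range.mpr hi, rfl⟩
    have h2 := (Finset.card_le_card h1).trans Finset.card_image_le
    rwa [Finset.card_range] at h2
  have hPP := card_ap_add hM hP
  -- the coset containing the progression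
  set Q : Finset (ZMod (nn a N)) :=
    Finset.univ.filter (fun x => x - g ∈ AddSubgroup.zmultiples d) with hQ
  have hQmem : ∀ x, x ∈ Q ↔ x - g ∈ AddSubgroup.zmultiples d := by
    intro x
    rw [hQ, Finset.mem_filter]
    exact ⟨fun h => h.2, fun h => ⟨Finset.mem_univ _, h⟩⟩
  have hQc : #Q = addOrderOf d := by
    rw [← Nat.card_zmultiples, Nat.card_eq_fintype_card, ← Fintype.card_coe]
    apply Fintype.card_congr
    exact
      { toFun := fun x => ⟨x.1 - g, (hQmem x.1).mp x.2⟩
        invFun := fun k => ⟨k.1 + g, (hQmem _).mpr (by rw [add_sub_cancel_right]; exact k.2)⟩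
        left_inv := fun x => Subtype.ext (sub_add_cancel _ _)
        right_inv := fun k => Subtype.ext (add_sub_cancel_right _ _) }
  have hPQ : P ⊆ Q := by
    intro x hx
    obtain ⟨i, _, rfl⟩ := (hP x).mp hx
    rw [hQmem, add_sub_cancel_left]
    exact AddSubgroup.nsmul_mem_zmultiples d i
  have htop : AddSubgroup.zmultiples d ⊔ H = ⊤ := by
    obtain ⟨x0, hx0, w0, hw0, he0⟩ := hcov 0 zero_mem_AA
    obtain ⟨x1, hx1, w1, hw1, he1⟩ := hcov 1 one_mem_AA
    apply top_of_mem (g := g)
    · rw [he0, show x0 + w0 - g = (x0 - g) + w0 by ring]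
      exact (AddSubgroup.zmultiples d ⊔ H).add_mem
        (AddSubgroup.mem_sup_left ((hQmem x0).mp (hPQ hx0))) (AddSubgroup.mem_sup_right hw0)
    · rw [he1, show x1 + w1 - g = (x1 - g) + w1 by ring]
      exact (AddSubgroup.zmultiples d ⊔ H).add_mem
        (AddSubgroup.mem_sup_left ((hQmem x1).mp (hPQ hx1))) (AddSubgroup.mem_sup_right hw1)
  have hcovQ : ∀ z : ZMod (nn a N), ∃ t ∈ Q, ∃ x ∈ H, z = t + x := by
    intro z
    have hz : z - g ∈ AddSubgroup.zmultiples d ⊔ H := by rw [htop]; exact AddSubgroup.mem_top _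
    obtain ⟨k, hk, x, hx, he⟩ := AddSubgroup.mem_sup.mp hz
    refine ⟨g + k, ?_, x, hx, ?_⟩
    · rw [hQmem, add_sub_cancel_left]; exact hk
    · rw [add_assoc, he]; ring
  set B : Finset (ZMod (nn a N)) :=
    Finset.univ.filter (fun z => z ∉ (P : Set (ZMod (nn a N))) + (H : Set (ZMod (nn a N)))) with hB
  have hBc : #B ≤ #(Q \ P) * Nat.card H := by
    apply card_le_of_cover
    intro b hb
    rw [hB, Finset.mem_filter] at hb
    obtain ⟨t, ht, x, hx, he⟩ := hcovQ b
    refine ⟨t, ?_, x, hx, he⟩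
    rw [Finset.mem_sdiff]
    refine ⟨ht, fun htP => hb.2 ?_⟩
    rw [he]
    exact Set.add_mem_add htP hx
  have hBn : nn a N = ((P : Set (ZMod (nn a N))) + (H : Set (ZMod (nn a N)))).ncard + #B := by
    have h1 := Finset.card_filter_add_card_filter_not (s := (Finset.univ : Finset (ZMod (nn a N))))
      (fun z => z ∈ (P : Set (ZMod (nn a N))) + (H : Set (ZMod (nn a N))))
    rw [Finset.card_univ, ZMod.card] at h1
    have h2 : ((P : Set (ZMod (nn a N))) + (H : Set (ZMod (nn a N)))).ncard =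
        #(Finset.univ.filter
          (fun z => z ∈ (P : Set (ZMod (nn a N))) + (H : Set (ZMod (nn a N))))) := by
      rw [← Set.ncard_coe_finset]
      congr 1
      ext z
      simp
    rw [h2, hB]
    exact h1.symm
  have hsd : #(Q \ P) + #P = #Q := Finset.card_sdiff_add_card_eq_card hPQ
  have hkey : #(Q \ P) * Nat.card H ≤ 5 * 2 ^ a := by
    rcases Nat.lt_or_ge (addOrderOf d) (2 * M - 1) with h1 | h1
    · rw [min_eq_right h1.le] at hPP
      have h2 := Nat.mul_le_mul_right (Nat.card H) hPP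
      rw [← hQc, ← hsd, add_mul] at h2
      omega
    · exfalso
      rw [min_eq_left h1] at hPP
      have h2 := Nat.mul_le_mul_right (Nat.card H) hPP
      have h3 := Nat.mul_le_mul_right (Nat.card H) hPM
      have h4 : (2 * M - 1) * Nat.card H = M * Nat.card H + (M - 1) * Nat.card H := by
        rw [← add_mul]
        congr 1
        omega
      have h5 : M - 1 ≤ (M - 1) * Nat.card H := Nat.le_mul_of_pos_right _ hHpos
      omega
  omega

end final

/-- **Main theorem.**  For all positive `C₁`, `C₂`, `δ` there are `n` and a nonempty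
`A ⊆ ℤ_n` with `|A| < n / C₁` and `|2A| ≤ 9/4 |A|` such that every pair `(P, H)` with
`P ⊆ ℤ_n`, `H` a proper subgroup, (a) `A ⊆ P + H` and (b) `(|2P| - |P|)|H| ≤ |2A| - |A|`
has `|P| > C₂`, and, if `P` is an arithmetic progression, then `P + H` contains more than
`(1 - δ) n` elements of `ℤ_n`. -/
theorem result (C₁ C₂ δ : ℝ) (hC₁ : 0 < C₁) (hC₂ : 0 < C₂) (hδ : 0 < δ) :
    ∃ (n : ℕ) (_ : NeZero n) (A : Finset (ZMod n)), A.Nonempty ∧
      (#A : ℝ) < C₁⁻¹ * n ∧ (#(A + A) : ℝ) ≤ 9 / 4 * #A ∧
      ∀ (P : Finset (ZMod n)) (H : AddSubgroup (ZMod n)), H ≠ ⊤ →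
        (A : Set (ZMod n)) ⊆ (P : Set (ZMod n)) + (H : Set (ZMod n)) →
        ((#(P + P) : ℝ) - #P) * Nat.card H ≤ (#(A + A) : ℝ) - #A →
        C₂ < #P ∧
        (IsAP P → (1 - δ) * n < (((P : Set (ZMod n)) + (H : Set (ZMod n))).ncard : ℝ)) := by
  obtain ⟨a, ha⟩ := pow_unbounded_of_one_lt C₂ (one_lt_two : (1 : ℝ) < 2)
  obtain ⟨N, hNge, hNp⟩ := Nat.exists_infinite_primes
    (7 + (10 * 2 ^ a + 1) + ⌈2 * C₂⌉₊ + (⌈2 * C₁⌉₊ + 1) + (⌈5 / δ⌉₊ + 1))
  have hfact : Fact N.Prime := ⟨hNp⟩
  have hneN : NeZero N := ⟨hNp.ne_zero⟩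
  have hN7 : 7 ≤ N := by omega
  have hN10 : 10 * 2 ^ a < N := by omega
  have hNC2 : 2 * C₂ ≤ N := by
    refine (Nat.le_ceil _).trans ?_
    exact_mod_cast (by omega : ⌈2 * C₂⌉₊ ≤ N)
  have hNC1 : 2 * C₁ < N := by
    refine lt_of_le_of_lt (Nat.le_ceil _) ?_
    exact_mod_cast (by omega : ⌈2 * C₁⌉₊ < N)
  have hNδ : 5 / δ < N := by
    refine lt_of_le_of_lt (Nat.le_ceil _) ?_
    exact_mod_cast (by omega : ⌈5 / δ⌉₊ < N)
  have hne : NeZero (nn a N) := ⟨by unfold nn; have := NeZero.pos N; positivity⟩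
  have hncast : ((nn a N : ℕ) : ℝ) = 2 * 2 ^ a * N := by
    unfold nn
    push_cast
    ring
  have h2a : (0 : ℝ) < 2 ^ a := by positivity
  have hNpos : (0 : ℝ) < N := by exact_mod_cast NeZero.pos N
  have hAc := card_AA (a := a) hN7
  have hAAc := card_AA_add (a := a) (N := N)
  refine ⟨nn a N, hne, AA a N, ⟨0, zero_mem_AA⟩, ?_, ?_, ?_⟩
  · rw [hAc, hncast]
    push_cast
    rw [inv_mul_eq_div, lt_div_iff₀ hC₁]
    nlinarith
  · rw [hAc]
    push_cast
    have h1 : (#(AA a N + AA a N) : ℝ) ≤ 9 * 2 ^ a := by exact_mod_cast hAAc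
    linarith
  intro P H hHtop hsub hb
  have hcov : ∀ b ∈ AA a N, ∃ t ∈ P, ∃ x ∈ H, b = t + x := by
    intro b hb
    obtain ⟨t, ht, x, hx, he⟩ := Set.mem_add.mp (hsub hb)
    exact ⟨t, ht, x, hx, he.symm⟩
  have hbN : #(P + P) * Nat.card H ≤ #P * Nat.card H + 5 * 2 ^ a := by
    have h1 : (#(AA a N + AA a N) : ℝ) ≤ 9 * 2 ^ a := by exact_mod_cast hAAc
    have h2 : (#(AA a N) : ℝ) = 4 * 2 ^ a := by rw [hAc]; push_cast; ring
    rw [h2] at hb
    have h3 : ((#(P + P) * Nat.card H : ℕ) : ℝ) ≤ ((#P * Nat.card H + 5 * 2 ^ a : ℕ) : ℝ) := by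
      push_cast
      linarith
    exact_mod_cast h3
  by_cases hH : H ≤ K2 a N
  · constructor
    · by_contra hcon
      push Not at hcon
      have h1 : 2 * #(P.image (pr a N)) ≤ N + 1 := by
        have h2 : #(P.image (pr a N)) ≤ #P := Finset.card_image_le
        have h3 : ((2 * #P : ℕ) : ℝ) ≤ ((N + 1 : ℕ) : ℝ) := by
          push_cast
          linarith
        have h4 : 2 * #P ≤ N + 1 := by exact_mod_cast h3
        omega
      have h2 := (case_one hN7 hH hcov hbN h1).1
      have h3 := card_le_of_cover hcov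
      rw [h2, mul_one, hAc] at h3
      have h4 : ((4 * 2 ^ a : ℕ) : ℝ) ≤ #P := by exact_mod_cast h3
      push_cast at h4
      linarith
    · intro hAP
      have h1 := ap_big hN7 hH hN10 hcov hbN hAP
      have h2 : ((nn a N : ℕ) : ℝ) ≤
          (((P : Set (ZMod (nn a N))) + (H : Set (ZMod (nn a N)))).ncard : ℝ) + 5 * 2 ^ a := by
        exact_mod_cast h1
      have h3 : 5 < δ * N := by
        rw [div_lt_iff₀ hδ] at hNδ
        linarith
      have h4 : (5 : ℝ) * 2 ^ a < δ * (2 * 2 ^ a * N) := by nlinarith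
      rw [← hncast] at h4
      generalize (((P : Set (ZMod (nn a N))) + (H : Set (ZMod (nn a N)))).ncard : ℝ) = y at h2 ⊢
      generalize ((nn a N : ℕ) : ℝ) = ν at h2 h4 ⊢
      linarith
  · have hodd : N.Coprime 2 := by
      rw [Nat.coprime_comm]
      rw [Nat.coprime_primes Nat.prime_two hNp]
      omega
    obtain ⟨h1, h2⟩ := case_two hHtop hH (by omega) hodd hcov hbN
    constructor
    · have h3 : ((2 ^ (a + 1) : ℕ) : ℝ) ≤ #P := by exact_mod_cast h1
      push_cast at h3
      rw [pow_succ] at h3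
      linarith
    · intro _
      have h3 : (P : Set (ZMod (nn a N))) + (H : Set (ZMod (nn a N))) = Set.univ := by
        ext z
        refine ⟨fun _ => Set.mem_univ _, fun _ => ?_⟩
        obtain ⟨t, ht, x, hx, rfl⟩ := h2 z
        exact Set.add_mem_add ht hx
      rw [h3, Set.ncard_univ, Nat.card_zmod]
      have h4 : (0 : ℝ) < ((nn a N : ℕ) : ℝ) := by exact_mod_cast NeZero.pos (nn a N)
      nlinarith

end Pool.Agent.Results.MP_09e095_co.EfficientFormFails
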