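import Mathlib
import Pool.Agent.Lib.MP_09e095_co.FinRes
import Pool.Agent.Lib.MP_09e095_co.MLQQ0
import Pool.Agent.Lib.MP_09e095_co.MLThree

/-!
# Sets with doubling below `3` in cyclic groups

There is an absolute constant `C₁` such that for every `ε > 0`, every `n` and every `A ⊆ ℤ_n` with
`|2A| < (3 - ε)|A|` there are a subgroup `H ≤ ℤ_n` and a set `P ⊆ ℤ_n / H` (with `2P` formed in
`ℤ_n / H`) which satisfy (a), (b), (c) of the question, where `P` is the image of `A` and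
`|P| ≤ 3 / ε`, or `P` is an arithmetic progression; moreover `|P||H| ≤ C₁|A|`, and `H` is proper
when `|A| < n / C₁`.
-/

set_option autoImplicit false

open scoped Pointwise

namespace Pool.Agent.Results.MP_09e095_co.QuotientForm

theorem result : ∃ C₁ : ℝ, 0 < C₁ ∧
    ∀ (ε : ℝ), 0 < ε → ∀ (n : ℕ) [NeZero n] (A : Finset (ZMod n)),
      ((A + A).card : ℝ) < (3 - ε) * A.card →
      ∃ (H : AddSubgroup (ZMod n)) (P : Set (ZMod n ⧸ H)),
        -- `H` is proper when `|A| < n / C₁`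
        ((A.card : ℝ) < C₁⁻¹ * n → H ≠ ⊤) ∧
        -- (a) `A ⊆ P + H`
        (∀ a ∈ A, (QuotientAddGroup.mk a : ZMod n ⧸ H) ∈ P) ∧
        -- (b) `(|2P| - |P|)|H| ≤ |2A| - |A|`
        (((P + P).ncard : ℤ) - P.ncard) * Nat.card H ≤ ((A + A).card : ℤ) - A.card ∧
        -- (c) `|2P| / |P| ≤ |2A| / |A|`
        (P + P).ncard * A.card ≤ (A + A).card * P.ncard ∧
        -- (d) `P = A / H` and `|P| ≤ 3 / ε`, or `P` is an arithmetic progression
        ((P = {x | ∃ a ∈ A, (QuotientAddGroup.mk a : ZMod n ⧸ H) = x} ∧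
            3 * P.ncard ≤ (P + P).ncard + 3 ∧ (P.ncard : ℝ) ≤ 3 / ε) ∨
          (2 ≤ P.ncard ∧ ∃ (k : ℕ) (p d : ZMod n ⧸ H), P = {x | ∃ j : ℕ, j < k ∧ x = p + j • d} ∧
            ((k : ℤ) - 1) * Nat.card H ≤ ((A + A).card : ℤ) - A.card)) ∧
        -- (e) `P + H` is small
        (P.ncard : ℝ) * Nat.card H ≤ C₁ * A.card :=
  Pool.Agent.Lib.MP_09e095_co.Fin.final_form
    (Pool.Agent.Lib.MP_09e095_co.QQ_of_strip
      (fun _ _ _ N _ π hπ P hB hS =>
        Pool.Agent.Lib.MP_09e095_co.strips_main N π hπ P hB hS))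

end Pool.Agent.Results.MP_09e095_co.QuotientForm
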